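import Pool.Agent.R262.OPA.Baire

/-!
# MP_48c50a_an, Q1: optimal approximants with zeros in every sector at a boundary point

The elements of `H²_ω` are given by their power series at `0`; for the weights considered
(`ω_k / ω_{k+1} → 1`) every series with finite norm converges in the unit disk.

There are a weight `ω` (namely `ω_k = (k+1)^(-8)`), a cyclic function `f` and a point `ζ` of the unit
circle such that every sector with vertex `ζ` contains a zero of an optimal polynomial approximant of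
`1/f`.  So the answer to Q1 is negative.

Method: Baire category in the closure of the set of all `1/P`, `P` a polynomial without zeros in the
closed disk. The functions `1/(P(z) (1 - a z^N)^2)` converge to `1/P` as `N → ∞`, and their
optimal approximant of degree `N + deg P` is close to `P(z) (1 - a σ_N z^N)` with `|a σ_N| > 1`, which
has zeros inside the disk, at distance about `1/N` from `ζ` and in a prescribed direction.
-/

open Filter Topology
open scoped InnerProductSpace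

namespace Pool.Agent.Results.MP_48c50a_an.NoZeroFreeSector

/-- A weight: `ω_0 = 1`, `ω_k > 0`, `ω_k / ω_{k+1} → 1`. -/
def IsWeight (ω : ℕ → ℝ) : Prop :=
  ω 0 = 1 ∧ (∀ k, 0 < ω k) ∧ Tendsto (fun k => ω k / ω (k + 1)) atTop (𝓝 1)

/-- `‖f‖²_ω = ∑ ω_k |a_k|² ∈ [0, ∞]` for the power series `f = ∑ a_k z^k`. -/
noncomputable def normSq (ω : ℕ → ℝ) (f : PowerSeries ℂ) : ENNReal :=
  ∑' k, ENNReal.ofReal (ω k * ‖PowerSeries.coeff k f‖ ^ 2)

/-- `f ∈ H²_ω` is cyclic: the polynomial multiples of `f` are dense in `H²_ω`. -/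
def Cyclic (ω : ℕ → ℝ) (f : PowerSeries ℂ) : Prop :=
  normSq ω f < ⊤ ∧ ∀ g, normSq ω g < ⊤ → ∀ ε : ENNReal, 0 < ε →
    ∃ p : Polynomial ℂ, normSq ω ((p : PowerSeries ℂ) * f - g) < ε

/-- `q` is the `n`-th optimal polynomial approximant of `1/f`: the unique polynomial of degree at
most `n` which minimises `‖p f - 1‖_ω` over all polynomials `p` of degree at most `n`. -/
def IsOptimal (ω : ℕ → ℝ) (f : PowerSeries ℂ) (n : ℕ) (q : Polynomial ℂ) : Prop :=
  q.natDegree ≤ n ∧ ∀ p : Polynomial ℂ, p.natDegree ≤ n → p ≠ q →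
    normSq ω ((q : PowerSeries ℂ) * f - 1) < normSq ω ((p : PowerSeries ℂ) * f - 1)

/-- The sector `{ζ + r e^{iθ} : 0 < r < ρ, θ₁ < θ < θ₂}`. -/
def sector (ζ : ℂ) (ρ θ₁ θ₂ : ℝ) : Set ℂ :=
  {z | ∃ r θ : ℝ, 0 < r ∧ r < ρ ∧ θ₁ < θ ∧ θ < θ₂ ∧ z = ζ + r * Complex.exp (θ * Complex.I)}

open Pool.Agent.R262.OPA in
lemma normSq_ser (x : H) : normSq (fun k => s k ^ 2) (ser x) = ENNReal.ofReal (‖x‖ ^ 2) := by
  unfold normSq
  have h : ∀ k, s k ^ 2 * ‖PowerSeries.coeff k (ser x)‖ ^ 2 = ‖x k‖ ^ 2 := by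
    intro k
    rw [coeff_ser, norm_div, Complex.norm_real, Real.norm_of_nonneg (s_pos k).le]
    have := (s_pos k).ne'
    field_simp
  simp only [h]
  rw [normSq_eq, ENNReal.ofReal_tsum_of_nonneg (fun k => by positivity) (summable_sq x)]

open Pool.Agent.R262.OPA in
lemma exists_ser {f : PowerSeries ℂ} (hf : normSq (fun k => s k ^ 2) f < ⊤) : ∃ x : H, ser x = f := by
  have hm : Mem f := by
    unfold Mem
    have h1 : Summable fun k => s k ^ 2 * ‖PowerSeries.coeff k f‖ ^ 2 := by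
      refine (ENNReal.summable_toReal hf.ne).congr fun k => ?_
      rw [ENNReal.toReal_ofReal (by positivity)]
    refine h1.congr fun k => ?_
    rw [norm_mul, Complex.norm_real, Real.norm_of_nonneg (s_pos k).le, mul_pow]
  exact ⟨toH f hm, ser_toH f hm⟩

open Pool.Agent.R262.OPA in
lemma isWeight : IsWeight (fun k => s k ^ 2) := by
  refine ⟨by simp [s_zero], fun k => pow_pos (s_pos k) 2, ?_⟩
  have h : ∀ k : ℕ, s k ^ 2 / s (k + 1) ^ 2 = (1 + 1 / ((k : ℝ) + 1)) ^ 8 := by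
    intro k
    unfold s
    push_cast
    field_simp
  simp only [h]
  have h1 : Tendsto (fun k : ℕ => 1 + 1 / ((k : ℝ) + 1)) atTop (𝓝 (1 + 0)) :=
    tendsto_const_nhds.add tendsto_one_div_add_atTop_nhds_zero_nat
  simpa using h1.pow 8

/-- **Negative answer to Q1.** There are a weight `ω`, a cyclic `f ∈ H²_ω` and `ζ` on the unit circle
such that every sector with vertex `ζ` contains a zero of some optimal polynomial approximant of
`1/f`. -/
theorem result : ∃ (ω : ℕ → ℝ) (f : PowerSeries ℂ) (ζ : ℂ), IsWeight ω ∧ Cyclic ω f ∧ ‖ζ‖ = 1 ∧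
    ∀ ρ θ₁ θ₂ : ℝ, 0 < ρ → θ₁ < θ₂ →
      ∃ (n : ℕ) (q : Polynomial ℂ), IsOptimal ω f n q ∧ ∃ z ∈ sector ζ ρ θ₁ θ₂, q.eval z = 0 := by
  open Pool.Agent.R262.OPA in
  obtain ⟨y, hcyc, hreq⟩ := exists_generic
  refine ⟨fun k => s k ^ 2, ser y, 1, isWeight, ⟨?_, ?_⟩, by simp, ?_⟩
  · rw [normSq_ser]; exact ENNReal.ofReal_lt_top
  · intro g hg ε hε
    obtain ⟨x, rfl⟩ := exists_ser hg
    obtain ⟨δ, hδ, hδε⟩ : ∃ δ : ℝ, 0 < δ ∧ ENNReal.ofReal (δ ^ 2) ≤ ε := by
      rcases eq_or_ne ε ⊤ with h | h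
      · exact ⟨1, one_pos, by rw [h]; exact le_top⟩
      · have h1 : 0 < ε.toReal := ENNReal.toReal_pos hε.ne' h
        refine ⟨Real.sqrt ε.toReal, Real.sqrt_pos.2 h1, ?_⟩
        rw [Real.sq_sqrt h1.le, ENNReal.ofReal_toReal h]
    obtain ⟨p, hp⟩ := cyclic_of hcyc x hδ
    refine ⟨p, lt_of_lt_of_le ?_ hδε⟩
    rw [← ser_act, ← ser_sub, normSq_ser]
    apply (ENNReal.ofReal_lt_ofReal_iff (by positivity)).2
    gcongr
  · intro ρ θ₁ θ₂ hρ hθ
    obtain ⟨n, q, hq, r, ψ, h1, h2, h3, h4, h5⟩ := hreq ρ θ₁ θ₂ hρ hθ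
    refine ⟨n, q, ⟨hq.1, fun p hp hpq => ?_⟩, _, ⟨r, ψ, h1, h2, h3, h4, rfl⟩, h5⟩
    rw [← ser_act, ← ser_act, ← ser_e, ← ser_sub, ← ser_sub, normSq_ser, normSq_ser]
    have hy : y ≠ 0 := by
      rintro rfl
      obtain ⟨p, hp⟩ := hcyc 1 one_pos
      have he : ‖e‖ = 1 := by
        unfold e
        rw [lp.norm_single (by norm_num)]; simp
      rw [map_zero, zero_sub, norm_neg, he] at hp
      exact lt_irrefl _ hp
    have hlt := hq.lt hy p hp hpq
    have h0 : 0 ≤ ‖act q y - e‖ := norm_nonneg _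
    apply (ENNReal.ofReal_lt_ofReal_iff (by have := h0.trans_lt hlt; positivity)).2
    gcongr

end Pool.Agent.Results.MP_48c50a_an.NoZeroFreeSector
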